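import Pool.Agent.V1193.WalshWeights

/-!
# The dyadic Walsh-Cesàro means of order `α` are not bounded from `H_{1/(1+α)}` to `L_{1/(1+α)}`

The witnesses are the atoms `2^{k(1+α)} r_k 1_{I_k(0)}`, whose means of order `2^{k+1}` have
`L_p` quasi-norm at least `δ (k+1)^{1/p}`, `p = 1/(1+α)`.
-/

set_option autoImplicit false

namespace Pool.Agent.Results.MP_b4b6e5_an.DyadicCesaro

open MeasureTheory Pool.Agent.V1193.Walsh
open scoped ENNReal NNReal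

/-- For every `0 < α < 1`, with `p = 1/(1+α)`: for every constant `K` there are `f ∈ H_p` and `n` with
`K ‖f‖_{H_p} < ‖σ^α_{2^n} f‖_p`; moreover the `H_p → L_p` quasi-norm of `σ^α_{2^n}` is at least
`δ n^{1/p}` for all `n ≥ 3`. -/
theorem result (α : ℝ) (h0 : 0 < α) (h1 : α < 1) :
    (∀ K : ℝ≥0, ∃ (f : ℕ → G → ℝ) (n : ℕ), Martingale f dyadic mu ∧
      hpNorm (1/(1+α)) f < ∞ ∧
      (K : ℝ≥0∞) * hpNorm (1/(1+α)) f < lpNorm (1/(1+α)) (cesMean α (2^n) f)) ∧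
    ∃ δ : ℝ, 0 < δ ∧ ∀ n : ℕ, 3 ≤ n → ∃ f : ℕ → G → ℝ, Martingale f dyadic mu ∧
      hpNorm (1/(1+α)) f = 1 ∧
      ENNReal.ofReal (δ * (n:ℝ) ^ (1+α)) ≤ lpNorm (1/(1+α)) (cesMean α (2^n) f) := by
  have e : ∀ (n : ℕ) (f : ℕ → G → ℝ), cesMean α n f = norl (cesNum (α-1)) (cesNum α) n f := by
    intro n f; funext x; unfold cesMean norl; rw [one_div]
  simp only [e]
  exact ⟨fun K => norl_negative (goodC α h0 h1) h0 K, norl_unbounded (goodC α h0 h1) h0⟩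

end Pool.Agent.Results.MP_b4b6e5_an.DyadicCesaro
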